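import Mathlib

set_option autoImplicit false
open Complex Finset

namespace Pool.Agent.Lead.EP

noncomputable def ee (x : ℝ) : ℂ := Complex.exp (2 * (Real.pi : ℂ) * I * (x : ℂ))

noncomputable def ct (d : ℝ) : ℝ := Real.cos (Real.pi * d) / Real.sin (Real.pi * d)

noncomputable def cc (d : ℝ) : ℂ := -1 / 2 - I / 2 * (ct d : ℂ)

lemma ee_add (x y : ℝ) : ee (x + y) = ee x * ee y := by
  unfold ee; rw [← Complex.exp_add]; congr 1; push_cast; ring

lemma ee_int (n : ℤ) : ee n = 1 := by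
  unfold ee
  have := Complex.exp_int_mul_two_pi_mul_I n
  rw [← this]; congr 1; push_cast; ring

lemma norm_ee (x : ℝ) : ‖ee x‖ = 1 := by
  unfold ee
  have : 2 * (Real.pi : ℂ) * I * (x : ℂ) = ((2 * Real.pi * x : ℝ) : ℂ) * I := by push_cast; ring
  rw [this, Complex.norm_exp_ofReal_mul_I]

lemma ee_eq (x : ℝ) : ee x = (Real.cos (2 * Real.pi * x) : ℂ) + (Real.sin (2 * Real.pi * x) : ℂ) * I := by
  unfold ee
  have : 2 * (Real.pi : ℂ) * I * (x : ℂ) = ((2 * Real.pi * x : ℝ) : ℂ) * I := by push_cast; ring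
  rw [this, Complex.exp_mul_I]; push_cast; ring

lemma sin_pos' {d : ℝ} (h0 : 0 < d) (h1 : d < 1) : 0 < Real.sin (Real.pi * d) :=
  Real.sin_pos_of_pos_of_lt_pi (by positivity) (by nlinarith [Real.pi_pos])

lemma cc_mul {d : ℝ} (h0 : 0 < d) (h1 : d < 1) : cc d * (ee d - 1) = 1 := by
  have hs := sin_pos' h0 h1
  have h2 : 2 * Real.pi * d = 2 * (Real.pi * d) := by ring
  have hq := Real.sin_sq_add_cos_sq (Real.pi * d)
  rw [ee_eq, h2, Real.cos_two_mul, Real.sin_two_mul]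
  unfold cc ct
  set s := Real.sin (Real.pi * d)
  set c := Real.cos (Real.pi * d)
  apply Complex.ext
  · simp [pow_two]
    field_simp
    nlinarith
  · simp [pow_two]
    field_simp
    have : c ^ 2 = 1 - s ^ 2 := by linarith
    rw [this]; ring

lemma ct_anti {a b : ℝ} (h0 : 0 < a) (hab : a ≤ b) (h1 : b < 1) : ct b ≤ ct a := by
  have ha := sin_pos' h0 (lt_of_le_of_lt hab h1)
  have hb := sin_pos' (lt_of_lt_of_le h0 hab) h1
  unfold ct
  rw [div_le_div_iff₀ hb ha]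
  have : 0 ≤ Real.sin (Real.pi * b - Real.pi * a) :=
    Real.sin_nonneg_of_nonneg_of_le_pi (by nlinarith [Real.pi_pos]) (by nlinarith [Real.pi_pos])
  rw [Real.sin_sub] at this
  nlinarith

lemma ct_le {l : ℝ} (h0 : 0 < l) (h1 : l < 1 / 2) : ct l ≤ 1 / (Real.pi * l) := by
  have hs := sin_pos' h0 (by linarith)
  have hx : 0 < Real.pi * l := by positivity
  have hlt : Real.pi * l < Real.pi / 2 := by nlinarith [Real.pi_pos]
  have hc : 0 < Real.cos (Real.pi * l) := Real.cos_pos_of_mem_Ioo ⟨by linarith, hlt⟩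
  have ht := Real.le_tan hx.le hlt
  rw [Real.tan_eq_sin_div_cos, le_div_iff₀ hc] at ht
  unfold ct
  rw [div_le_div_iff₀ hs hx]; linarith

lemma ct_one_sub (l : ℝ) : ct (1 - l) = -ct l := by
  unfold ct
  rw [mul_sub, mul_one, Real.cos_pi_sub, Real.sin_pi_sub]; ring

lemma norm_cc (d : ℝ) : ‖cc d‖ ≤ 1 / 2 + |ct d| / 2 := by
  unfold cc
  refine (norm_sub_le _ _).trans ?_
  simp
  ring_nf; rfl

/-- Kusmin-Landau inequality -/
lemma kl_aux (φ : ℕ → ℝ) (ν : ℤ) (a : ℕ) (δ : ℕ → ℝ) (hδ : ∀ n, δ n = φ (n + 1) - φ n - ν)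
    (hm : ∀ n, δ n ≤ δ (n + 1)) (h0 : 0 < δ a) :
    ∀ k : ℕ, δ (a + k) < 1 →
      ‖∑ n ∈ Ico a (a + k + 1), ee (φ n) - cc (δ (a + k)) * ee (φ (a + k + 1)) + cc (δ a) * ee (φ a)‖
        ≤ (ct (δ a) - ct (δ (a + k))) / 2 := by
  have hmono : Monotone δ := monotone_nat_of_le_succ hm
  have hstep : ∀ n, ee (φ (n + 1)) = ee (φ n) * ee (δ n) := by
    intro n
    have : φ (n + 1) = φ n + δ n + (ν : ℝ) := by rw [hδ]; ring
    rw [this, ee_add, ee_add, ee_int, mul_one]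
  have hE : ∀ n, 0 < δ n → δ n < 1 → ee (φ n) = cc (δ n) * ee (φ (n + 1)) - cc (δ n) * ee (φ n) := by
    intro n h1 h2
    rw [hstep]
    have := cc_mul h1 h2
    linear_combination (-(ee (φ n))) * this
  intro k
  induction k with
  | zero =>
    intro h1
    simp only [add_zero] at h1 ⊢
    rw [Nat.Ico_succ_singleton, sum_singleton]
    have := hE a h0 h1
    have h2 : ee (φ a) - cc (δ a) * ee (φ (a + 1)) + cc (δ a) * ee (φ a) = 0 := by
      linear_combination this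
    rw [h2]; simp
  | succ k ih =>
    intro h1
    have hle : δ (a + k) ≤ δ (a + (k + 1)) := hmono (by omega)
    have hk0 : 0 < δ (a + k) := lt_of_lt_of_le h0 (hmono (by omega))
    have ih' := ih (lt_of_le_of_lt hle h1)
    have e1 : a + (k + 1) + 1 = (a + k + 1) + 1 := by ring
    have e2 : a + (k + 1) = a + k + 1 := by ring
    rw [e1, sum_Ico_succ_top (by omega), e2]
    rw [e2] at h1 hle
    have h3 := hE (a + k + 1) (lt_of_lt_of_le hk0 hle) h1
    have h4 : ∑ n ∈ Ico a (a + k + 1), ee (φ n) + ee (φ (a + k + 1)) -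
        cc (δ (a + k + 1)) * ee (φ (a + k + 1 + 1)) + cc (δ a) * ee (φ a) =
        (∑ n ∈ Ico a (a + k + 1), ee (φ n) - cc (δ (a + k)) * ee (φ (a + k + 1)) + cc (δ a) * ee (φ a))
        + (cc (δ (a + k)) - cc (δ (a + k + 1))) * ee (φ (a + k + 1)) := by
      linear_combination h3
    rw [h4]
    refine (norm_add_le _ _).trans ?_
    have h5 : ‖(cc (δ (a + k)) - cc (δ (a + k + 1))) * ee (φ (a + k + 1))‖ =
        (ct (δ (a + k)) - ct (δ (a + k + 1))) / 2 := by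
      rw [norm_mul, norm_ee, mul_one]
      have : cc (δ (a + k)) - cc (δ (a + k + 1)) =
          -I * (((ct (δ (a + k)) - ct (δ (a + k + 1))) / 2 : ℝ) : ℂ) := by
        unfold cc; push_cast; ring
      rw [this, norm_mul, norm_neg, Complex.norm_I, one_mul, Complex.norm_real, Real.norm_eq_abs,
        abs_of_nonneg]
      have := ct_anti hk0 hle h1
      linarith
    rw [h5]; linarith

lemma kl (φ : ℕ → ℝ) (ν : ℤ) (a k : ℕ) (l : ℝ) (hl0 : 0 < l) (hl1 : l < 1 / 2)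
    (hm : ∀ n, φ (n + 1) - φ n ≤ φ (n + 1 + 1) - φ (n + 1))
    (h0 : l ≤ φ (a + 1) - φ a - ν) (h1 : φ (a + k + 1) - φ (a + k) - ν ≤ 1 - l) :
    ‖∑ n ∈ Ico a (a + k + 1), ee (φ n)‖ ≤ 1 + 2 / (Real.pi * l) := by
  set δ : ℕ → ℝ := fun n => φ (n + 1) - φ n - ν with hδ
  have hm' : ∀ n, δ n ≤ δ (n + 1) := fun n => by simp only [hδ]; linarith [hm n]
  have hmono : Monotone δ := monotone_nat_of_le_succ hm'
  have ha : l ≤ δ a := h0
  have hb : δ (a + k) ≤ 1 - l := h1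
  have hab : δ a ≤ δ (a + k) := hmono (by omega)
  have key := kl_aux φ ν a δ (fun n => rfl) hm' (by linarith) k (by linarith)
  have hc := ct_le hl0 hl1
  have b1 : ct (δ a) ≤ ct l := ct_anti hl0 ha (by linarith)
  have b2 : ct (1 - l) ≤ ct (δ (a + k)) := ct_anti (by linarith) hb (by linarith)
  have b3 : ct (δ (a + k)) ≤ ct (δ a) := ct_anti (by linarith) hab (by linarith)
  rw [ct_one_sub] at b2
  have n1 := norm_cc (δ a)
  have n2 := norm_cc (δ (a + k))
  have a1 : |ct (δ a)| ≤ ct l := abs_le.2 ⟨by linarith, b1⟩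
  have a2 : |ct (δ (a + k))| ≤ ct l := abs_le.2 ⟨b2, by linarith⟩
  have e : ∑ n ∈ Ico a (a + k + 1), ee (φ n) =
      (∑ n ∈ Ico a (a + k + 1), ee (φ n) - cc (δ (a + k)) * ee (φ (a + k + 1)) + cc (δ a) * ee (φ a))
      + cc (δ (a + k)) * ee (φ (a + k + 1)) - cc (δ a) * ee (φ a) := by ring
  rw [e]
  refine (norm_sub_le _ _).trans ?_
  refine (add_le_add_left (norm_add_le _ _) _).trans ?_
  rw [norm_mul, norm_mul, norm_ee, norm_ee]
  have : 2 / (Real.pi * l) = 2 * (1 / (Real.pi * l)) := by ring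
  rw [this]
  linarith

end Pool.Agent.Lead.EP
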