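import Pool.Agent.Lead.EP.KL

set_option autoImplicit false
open Complex Finset

namespace Pool.Agent.Lead.EP

noncomputable def uu (x : ℝ) : ℝ := Real.sqrt (x / 3)

noncomputable def ph (n : ℕ) : ℝ := 2 * uu n ^ 3

lemma uu_sq {x : ℝ} (hx : 0 ≤ x) : uu x ^ 2 = x / 3 := Real.sq_sqrt (by positivity)

lemma uu_nonneg (x : ℝ) : 0 ≤ uu x := Real.sqrt_nonneg _

lemma diff_bounds (n : ℕ) : uu n ≤ ph (n + 1) - ph n ∧ ph (n + 1) - ph n ≤ uu ((n + 1 : ℕ) : ℝ) := by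
  unfold ph
  have h1 := uu_sq (x := n) (by positivity)
  have h2 := uu_sq (x := ((n + 1 : ℕ) : ℝ)) (by positivity)
  have h3 := uu_nonneg n
  have h4 := uu_nonneg ((n + 1 : ℕ) : ℝ)
  set u := uu n
  set v := uu ((n + 1 : ℕ) : ℝ)
  have h5 : 3 * (v ^ 2 - u ^ 2) = 1 := by rw [h1, h2]; push_cast; ring
  have h6 : u ≤ v := by nlinarith
  have h7 : 0 ≤ (v - u) ^ 2 := sq_nonneg _
  constructor
  · have : 2 * v ^ 3 - 2 * u ^ 3 - u * (3 * (v ^ 2 - u ^ 2)) = (v - u) ^ 2 * (2 * v + u) := by ring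
    have h8 : 0 ≤ (v - u) ^ 2 * (2 * v + u) := by positivity
    rw [h5] at this; linarith
  · have : v * (3 * (v ^ 2 - u ^ 2)) - (2 * v ^ 3 - 2 * u ^ 3) = (v - u) ^ 2 * (v + 2 * u) := by ring
    have h8 : 0 ≤ (v - u) ^ 2 * (v + 2 * u) := by positivity
    rw [h5] at this; linarith

noncomputable def om : ℂ := ee (-(1 / 8))

lemma re_ge (x : ℝ) (h0 : 0 ≤ x) (h1 : x ≤ 1 / 4) : (7071 / 10000 : ℝ) ≤ (om * ee x).re := by
  unfold om
  rw [← ee_add, ee_eq]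
  simp only [add_re, ofReal_re, mul_re, I_re, mul_zero, ofReal_im, I_im, mul_one, sub_self, add_zero]
  have hp := Real.pi_pos
  have h2 : Real.cos (Real.pi / 4) ≤ Real.cos (|2 * Real.pi * (-(1 / 8) + x)|) := by
    apply Real.cos_le_cos_of_nonneg_of_le_pi (abs_nonneg _) (by linarith)
    rw [abs_le]; constructor <;> nlinarith
  rw [Real.cos_abs, Real.cos_pi_div_four] at h2
  have h3 : (14142 / 10000 : ℝ) ≤ Real.sqrt 2 := Real.le_sqrt_of_sq_le (by norm_num)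
  linarith

lemma central (t ν n : ℕ) (ht : 1 ≤ t) (h1 : 100 * t ^ 2 ≤ ν) (ha : 3 * ν ^ 2 ≤ n + 17 * t)
    (hb : n ≤ 3 * ν ^ 2 + 17 * t) : (7071 / 10000 : ℝ) ≤ (om * ee (ph n)).re := by
  have hu := uu_sq (x := n) (by positivity)
  have hu0 := uu_nonneg n
  set u := uu n with hudef
  have ht' : (1 : ℝ) ≤ t := by exact_mod_cast ht
  have h1' : 100 * (t : ℝ) ^ 2 ≤ ν := by exact_mod_cast h1
  have ha' : 3 * (ν : ℝ) ^ 2 ≤ n + 17 * t := by exact_mod_cast ha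
  have hb' : (n : ℝ) ≤ 3 * (ν : ℝ) ^ 2 + 17 * t := by exact_mod_cast hb
  have hν : (100 : ℝ) ≤ ν := by nlinarith
  have e : ph n = (u - ν) ^ 2 * (2 * u + ν) + (((ν : ℤ) * n - (ν : ℤ) ^ 3 : ℤ) : ℝ) := by
    unfold ph
    have : (n : ℝ) = 3 * u ^ 2 := by rw [hu]; ring
    push_cast
    rw [← hudef]
    conv_rhs => rw [this]
    ring
  rw [e, ee_add, ee_int, mul_one]
  apply re_ge _ (by positivity)
  have htν : (t : ℝ) ≤ ν / 100 := by nlinarith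
  have hu9 : 9 / 10 * (ν : ℝ) ≤ u := by
    apply (pow_le_pow_iff_left₀ (by positivity) hu0 two_ne_zero).1
    nlinarith
  have hh : (3 * (u ^ 2 - (ν : ℝ) ^ 2)) ^ 2 ≤ 289 / 100 * ν := by
    have : 3 * (u ^ 2 - (ν : ℝ) ^ 2) = n - 3 * (ν : ℝ) ^ 2 := by rw [hu]; ring
    rw [this]
    have : ((n : ℝ) - 3 * (ν : ℝ) ^ 2) ^ 2 ≤ (17 * t) ^ 2 := by
      apply sq_le_sq' <;> linarith
    nlinarith
  have hpos : 0 < (u + ν) ^ 2 := by positivity
  have h5 : 4 * (289 / 100 * ν) * (2 * u + ν) ≤ 9 * (u + ν) ^ 2 := by nlinarith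
  have h6 : (u - ν) ^ 2 * (2 * u + ν) * (36 * (u + ν) ^ 2) =
      4 * (3 * (u ^ 2 - (ν : ℝ) ^ 2)) ^ 2 * (2 * u + ν) := by ring
  have h7 : 4 * (3 * (u ^ 2 - (ν : ℝ) ^ 2)) ^ 2 * (2 * u + ν) ≤ 4 * (289 / 100 * ν) * (2 * u + ν) := by
    have : 0 ≤ 2 * u + ν := by positivity
    nlinarith
  by_contra hc
  push Not at hc
  nlinarith

lemma gap (t ν a k : ℕ) (ht : 1 ≤ t) (h2 : ν + 1 ≤ 101 * t ^ 2) (ha : a = 3 * ν ^ 2 + 17 * t)
    (hb : a + k + 1 + 17 * t = 3 * (ν + 1) ^ 2) :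
    ‖∑ n ∈ Ico a (a + k + 1), ee (ph n)‖ ≤ 1 + 23 * t := by
  have ht' : (1 : ℝ) ≤ t := by exact_mod_cast ht
  have h2' : (ν : ℝ) + 1 ≤ 101 * (t : ℝ) ^ 2 := by exact_mod_cast h2
  have ha' : (a : ℝ) = 3 * (ν : ℝ) ^ 2 + 17 * t := by exact_mod_cast ha
  have hb' : (a : ℝ) + k + 1 + 17 * t = 3 * ((ν : ℝ) + 1) ^ 2 := by exact_mod_cast hb
  set l : ℝ := 1 / (36 * t) with hl
  have hl0 : 0 < l := by positivity
  have hlt : l * t = 1 / 36 := by rw [hl]; field_simp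
  have hl1 : l ≤ 1 / 36 := by nlinarith
  have hν : (0 : ℝ) ≤ ν := by positivity
  have hνl : ((ν : ℝ) + 1) * l ≤ 101 / 36 * t := by
    have : ((ν : ℝ) + 1) * l ≤ 101 * (t : ℝ) ^ 2 * l := by gcongr
    have e : 101 * (t : ℝ) ^ 2 * l = 101 * t * (l * t) := by ring
    rw [e, hlt] at this; linarith
  have key := kl ph ν a k l hl0 (by linarith)
    (fun n => (diff_bounds n).2.trans (diff_bounds (n + 1)).1) ?_ ?_
  · refine key.trans ?_
    have hp := Real.pi_gt_d2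
    have : 2 / (Real.pi * l) ≤ 23 * t := by
      rw [div_le_iff₀ (by positivity)]
      have e : 23 * (t : ℝ) * (Real.pi * l) = 23 * Real.pi * (l * t) := by ring
      rw [e, hlt]; linarith
    linarith
  · have h := (diff_bounds a).1
    have : (ν : ℝ) + l ≤ uu a := by
      apply Real.le_sqrt_of_sq_le
      rw [ha']; nlinarith
    push_cast; linarith
  · have h := (diff_bounds (a + k)).2
    have : uu ((a + k + 1 : ℕ) : ℝ) ≤ ν + 1 - l := by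
      apply Real.sqrt_le_iff.2
      refine ⟨by linarith, ?_⟩
      push_cast
      nlinarith
    push_cast at *; linarith

def PP (t ν : ℕ) : ℕ := 3 * ν ^ 2 - 17 * t

lemma block (t ν : ℕ) (ht : 2 ≤ t) (h1 : 100 * t ^ 2 ≤ ν) (h2 : ν + 1 ≤ 101 * t ^ 2) :
    (t : ℝ) / 2 ≤ (om * ∑ n ∈ Ico (PP t ν) (PP t (ν + 1)), ee (ph n)).re := by
  have hν : 100 * t ≤ ν := by nlinarith
  have hP : PP t ν + 17 * t = 3 * ν ^ 2 := by
    unfold PP; apply Nat.sub_add_cancel; nlinarith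
  have hP' : PP t (ν + 1) + 17 * t = 3 * (ν + 1) ^ 2 := by
    unfold PP; apply Nat.sub_add_cancel; nlinarith
  obtain ⟨k, hk⟩ : ∃ k, PP t (ν + 1) = 3 * ν ^ 2 + 17 * t + k + 1 :=
    ⟨PP t (ν + 1) - (3 * ν ^ 2 + 17 * t + 1), by
      have : 3 * ν ^ 2 + 17 * t + 1 ≤ PP t (ν + 1) := by nlinarith
      omega⟩
  rw [← sum_Ico_consecutive _ (show PP t ν ≤ 3 * ν ^ 2 + 17 * t by omega)
    (show 3 * ν ^ 2 + 17 * t ≤ PP t (ν + 1) by omega), mul_add, add_re]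
  have g := gap t ν (3 * ν ^ 2 + 17 * t) k (by omega) h2 rfl (by omega)
  rw [← hk] at g
  have g2 : -(1 + 23 * (t : ℝ)) ≤
      (om * ∑ n ∈ Ico (3 * ν ^ 2 + 17 * t) (PP t (ν + 1)), ee (ph n)).re := by
    have := (abs_le.1 (Complex.abs_re_le_norm
      (om * ∑ n ∈ Ico (3 * ν ^ 2 + 17 * t) (PP t (ν + 1)), ee (ph n)))).1
    rw [norm_mul, om, norm_ee, one_mul] at this
    unfold om
    linarith
  have g3 : (7071 / 10000 : ℝ) * (34 * t) ≤
      (om * ∑ n ∈ Ico (PP t ν) (3 * ν ^ 2 + 17 * t), ee (ph n)).re := by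
    rw [mul_sum, re_sum]
    have := card_nsmul_le_sum (Ico (PP t ν) (3 * ν ^ 2 + 17 * t)) (fun n => (om * ee (ph n)).re)
      (7071 / 10000 : ℝ) (fun n hn => by
        rw [mem_Ico] at hn
        exact central t ν n (by omega) h1 (by omega) (by omega))
    rw [Nat.card_Ico, show 3 * ν ^ 2 + 17 * t - PP t ν = 34 * t by omega, nsmul_eq_mul] at this
    push_cast at this; linarith
  have ht' : (2 : ℝ) ≤ t := by exact_mod_cast ht
  linarith

lemma PP_mono (t : ℕ) {a b : ℕ} (h : a ≤ b) : PP t a ≤ PP t b := by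
  unfold PP
  have : a ^ 2 ≤ b ^ 2 := Nat.pow_le_pow_left h 2
  omega

lemma total (t : ℕ) (ht : 2 ≤ t) : ∀ k : ℕ, k ≤ t ^ 2 →
    (k : ℝ) * t / 2 ≤ (om * ∑ n ∈ Ico (PP t (100 * t ^ 2)) (PP t (100 * t ^ 2 + k)), ee (ph n)).re := by
  intro k
  induction k with
  | zero => intro _; simp
  | succ k ih =>
    intro hk
    rw [← sum_Ico_consecutive _ (PP_mono t (show 100 * t ^ 2 ≤ 100 * t ^ 2 + k by omega))
      (PP_mono t (show 100 * t ^ 2 + k ≤ 100 * t ^ 2 + (k + 1) by omega)), mul_add, add_re]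
    have h1 := ih (by omega)
    have h2 := block t (100 * t ^ 2 + k) ht (by omega) (by omega)
    rw [add_assoc] at h2
    push_cast; linarith

lemma big (t : ℕ) (ht : 2 ≤ t) :
    (t : ℝ) ^ 3 / 2 ≤ ‖∑ n ∈ Ico (PP t (100 * t ^ 2)) (PP t (101 * t ^ 2)), ee (ph n)‖ := by
  have h := total t ht (t ^ 2) le_rfl
  rw [show 100 * t ^ 2 + t ^ 2 = 101 * t ^ 2 by ring] at h
  have h2 := Complex.re_le_norm
    (om * ∑ n ∈ Ico (PP t (100 * t ^ 2)) (PP t (101 * t ^ 2)), ee (ph n))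
  rw [norm_mul, om, norm_ee, one_mul] at h2
  unfold om at h
  push_cast at h
  have : (t : ℝ) ^ 3 / 2 = (t : ℝ) ^ 2 * t / 2 := by ring
  linarith

noncomputable def aa : ℝ := 2 * (1 / 3 : ℝ) ^ (3 / 2 : ℝ)

noncomputable def ff (x : ℝ) : ℝ := aa * x ^ (3 / 2 : ℝ)

lemma ff_nat (n : ℕ) : ff n = ph n := by
  unfold ff ph aa uu
  rw [Real.sqrt_eq_rpow, ← Real.rpow_natCast, ← Real.rpow_mul (by positivity), mul_assoc,
    ← Real.mul_rpow (by norm_num) (by positivity)]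
  congr 2
  · ring
  · norm_num

noncomputable def co (j : ℕ) : ℝ := |aa * (descPochhammer ℝ j).eval (3 / 2 : ℝ)|

lemma co_pos (j : ℕ) : 0 < co j := by
  unfold co aa
  rw [abs_pos]
  refine mul_ne_zero (by positivity) ?_
  rw [descPochhammer_eval_eq_prod_range]
  refine prod_ne_zero_iff.2 fun i _ h => ?_
  have h2 : (3 : ℝ) = 2 * i := by linarith
  have h3 : 3 = 2 * i := by exact_mod_cast h2
  omega

lemma deriv_ff (j : ℕ) (N x : ℝ) (hN : 0 < N) (hx : x ∈ Set.Icc N (2 * N)) :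
    |iteratedDerivWithin j ff (Set.Icc N (2 * N)) x| = co j * x ^ ((3 / 2 : ℝ) - j) := by
  have hx0 : 0 < x := lt_of_lt_of_le hN hx.1
  have hc : ContDiffAt ℝ j (fun x : ℝ => x ^ (3 / 2 : ℝ)) x := Real.contDiffAt_rpow_const_of_ne hx0.ne'
  have hc' : ContDiffAt ℝ j ff x := contDiffAt_const.mul hc
  rw [iteratedDerivWithin_eq_iteratedDeriv (uniqueDiffOn_Icc (by linarith)) hc' hx]
  unfold ff co
  rw [iteratedDeriv_const_mul _ hc, iteratedDeriv_eq_iterate, Real.iter_deriv_rpow_const,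
    ← mul_assoc, abs_mul, abs_of_pos (Real.rpow_pos_of_pos hx0 _)]

end Pool.Agent.Lead.EP
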